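import Pool.Agent.Results.MP_8d6f76_pr.ClosedForm

open MeasureTheory Filter Topology Set Pool.Agent.Lib.MP_8d6f76_pr

namespace Pool.Agent.Variants.MP_8d6f76_pr.FisherHartwig

/-- The earlier hand-in (the question as posed), derived from the closed form: take the least
distance of the poles as the separation and multiply the two limits. -/
theorem result (k : ℕ) (p : Fin k → OnePoint ℂ) (hp : Function.Injective p)
    (γ : Fin k → ℂ) (hγ : ∀ i, -2 < (γ i).re) :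
    Tendsto (fun n : ℕ =>
      (∫ ω, Complex.exp (∑ i, γ i * (linStat (green (p i)) ω.1 ω.2 : ℝ))
          ∂((ginibre n).prod (ginibre n))) /
        (Complex.exp (-(∑ i, γ i) / 2 * n - (∑ i, γ i) / 4 - (∑ i, γ i) ^ 2 / 8) *
          (2 * Real.pi : ℂ) ^ ((∑ i, γ i) / 4) *
          ((n : ℂ) ^ ((∑ i, γ i ^ 2) / 8) /
            ∏ i, ∏ j ∈ Finset.Ioi i, ((chord (p i) (p j) : ℝ) : ℂ) ^ (γ i * γ j / 2)) *
          (1 / ∏ i, barnesG (1 + γ i / 2)))) atTop (𝓝 1) := by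
  obtain ⟨H1, H2⟩ := Pool.Agent.Results.MP_8d6f76_pr.ClosedForm.result k γ hγ
  obtain ⟨d, hd, hsep⟩ : ∃ d : ℝ, 0 < d ∧ ∀ i j, i ≠ j → d ≤ chord (p i) (p j) := by
    have h1 : ∀ᶠ d in 𝓝[>] (0 : ℝ), d ∈ Ioo (0 : ℝ) 1 := Ioo_mem_nhdsGT one_pos
    have h2 : ∀ᶠ d in 𝓝[>] (0 : ℝ), ∀ i j, i ≠ j → d ∈ Ioo 0 (chord (p i) (p j)) := by
      refine eventually_all.mpr fun i => eventually_all.mpr fun j => ?_
      by_cases hij : i = j
      · exact Eventually.of_forall fun d h => (h hij).elim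
      · filter_upwards [Ioo_mem_nhdsGT (chord_pos (hp.ne hij))] with d hd _ using hd
    obtain ⟨d, h3, h4⟩ := (h1.and h2).exists
    exact ⟨d, h3.1, fun i j hij => (h4 i j hij).2.le⟩
  obtain ⟨c, hc, H⟩ := H1 d hd
  have h0 : Tendsto (fun n : ℕ => Real.exp (-c * n)) atTop (𝓝 0) :=
    Real.tendsto_exp_atBot.comp
      (tendsto_natCast_atTop_atTop.const_mul_atTop_of_neg (by linarith))
  have h1 := tendsto_iff_norm_sub_tendsto_zero.mpr
    (squeeze_zero' (Eventually.of_forall fun _ => norm_nonneg _) (H.mono fun n hn => hn p hsep) h0)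
  have h2 := h1.mul H2
  rw [mul_one] at h2
  refine h2.congr' ?_
  filter_upwards [h1.eventually_ne one_ne_zero] with n hn
  have e : ∀ E A D c1 c2 c3 c4 : ℂ, E / (A / D) ≠ 0 →
      E / (A / D) * (A / (c1 * c2 * c3 / c4)) = E / (c1 * c2 * (c3 / D) * (1 / c4)) := by
    intro E A D c1 c2 c3 c4 h
    obtain ⟨hE, h⟩ := div_ne_zero_iff.mp h
    obtain ⟨hA, hD⟩ := div_ne_zero_iff.mp h
    rw [show c1 * c2 * (c3 / D) * (1 / c4) = c1 * c2 * c3 / c4 / D by ring]
    generalize c1 * c2 * c3 / c4 = C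
    field_simp
  exact e _ _ _ _ _ _ _ hn

end Pool.Agent.Variants.MP_8d6f76_pr.FisherHartwig
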